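import Pool.Agent.ZPK.StmtsR
import Pool.Agent.Helper27_ZPK.LGB

set_option autoImplicit false

namespace Pool.Agent.ZPK.H43

open Pool.Agent.ZPT Pool.Agent.ZP3

/-- the numbers `x_i` -/
noncomputable def XX (p : ℕ) (r : ℝ) (i : ℕ) : ℝ := (p : ℝ) ^ i * r ^ (p ^ i)

theorem XX_succ {p : ℕ} (hp : p.Prime) (r : ℝ) (i : ℕ) :
    XX p r (i + 1) = XX p r i * ((p : ℝ) * r ^ (p ^ i * (p - 1))) := by
  unfold XX
  have h1 : p ^ (i + 1) = p ^ i + p ^ i * (p - 1) := by
    obtain ⟨q, rfl⟩ : ∃ q, p = q + 1 := ⟨p - 1, by have := hp.one_lt; omega⟩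
    rw [pow_succ, Nat.add_sub_cancel]
    ring
  rw [h1, pow_add]
  ring

/-- the maximum -/
theorem XX_lt {p : ℕ} (hp : p.Prime) (r : ℝ) (hr0 : 0 < r) (hr1 : r < 1) (j : ℕ)
    (h1 : r ^ (p ^ j * (p - 1)) < (p : ℝ)⁻¹)
    (h2 : ∀ i < j, (p : ℝ)⁻¹ < r ^ (p ^ i * (p - 1))) (i : ℕ) (hi : i ≠ j) :
    XX p r i < XX p r j := by
  have hp0 : (0 : ℝ) < (p : ℝ) := by exact_mod_cast hp.pos
  have hX : ∀ i, 0 < XX p r i := fun i => by unfold XX; positivity
  have up : ∀ i < j, XX p r i < XX p r (i + 1) := by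
    intro i hi
    rw [XX_succ hp]
    have h3 := h2 i hi
    have h4 : 1 < (p : ℝ) * r ^ (p ^ i * (p - 1)) := by
      rw [inv_lt_iff_one_lt_mul₀ hp0] at h3
      linarith
    exact lt_mul_of_one_lt_right (hX i) h4
  have down : ∀ i, j ≤ i → XX p r (i + 1) < XX p r i := by
    intro i hi
    rw [XX_succ hp]
    have h3 : r ^ (p ^ i * (p - 1)) ≤ r ^ (p ^ j * (p - 1)) :=
      pow_le_pow_of_le_one hr0.le hr1.le
        (Nat.mul_le_mul_right _ (Nat.pow_le_pow_right hp.pos hi))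
    have h4 : (p : ℝ) * r ^ (p ^ i * (p - 1)) < 1 := by
      have h5 : r ^ (p ^ i * (p - 1)) < (p : ℝ)⁻¹ := lt_of_le_of_lt h3 h1
      calc (p : ℝ) * r ^ (p ^ i * (p - 1)) < (p : ℝ) * (p : ℝ)⁻¹ :=
            mul_lt_mul_of_pos_left h5 hp0
        _ = 1 := mul_inv_cancel₀ hp0.ne'
    exact mul_lt_of_lt_one_right (hX i) h4
  have up' : ∀ d i, i + (d + 1) = j → XX p r i < XX p r j := by
    intro d
    induction d with
    | zero =>
      intro i hi
      have := up i (by omega)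
      rw [← hi]
      simpa using this
    | succ d ih =>
      intro i hi
      exact lt_trans (up i (by omega)) (ih (i + 1) (by omega))
  have down' : ∀ d, XX p r (j + (d + 1)) < XX p r j := by
    intro d
    induction d with
    | zero => exact down j (le_refl _)
    | succ d ih => exact lt_trans (down (j + (d + 1)) (by omega)) ih
  rcases lt_or_gt_of_ne hi with h | h
  · exact up' (j - i - 1) i (by omega)
  · have := down' (i - j - 1)
    rwa [show j + (i - j - 1 + 1) = i by omega] at this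

/-- row LGN -/
theorem lgn : LgnStmt := by
  intro p hp h3 K _ _ _ hE Log hL y hy0 hy1 hne
  have hFp : Fact p.Prime := ⟨hp⟩
  have hp0 : (0 : ℝ) < (p : ℝ) := by exact_mod_cast hp.pos
  have hp1 : 1 < p := hp.one_lt
  set r : ℝ := ‖y‖ with hr
  -- existence of j
  have hex : ∃ j : ℕ, r ^ (p ^ j * (p - 1)) < (p : ℝ)⁻¹ := by
    obtain ⟨n, hn⟩ := exists_pow_lt_of_lt_one (inv_pos.mpr hp0) hy1
    refine ⟨n, lt_of_le_of_lt (pow_le_pow_of_le_one hy0.le hy1.le ?_) hn⟩
    have h1 : n < p ^ n := Nat.lt_pow_self hp1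
    have h2 : p ^ n * 1 ≤ p ^ n * (p - 1) := Nat.mul_le_mul_left _ (by omega)
    omega
  classical
  obtain ⟨j, hj1, hj2⟩ : ∃ j : ℕ, r ^ (p ^ j * (p - 1)) < (p : ℝ)⁻¹ ∧
      ∀ i < j, (p : ℝ)⁻¹ < r ^ (p ^ i * (p - 1)) := by
    refine ⟨Nat.find hex, Nat.find_spec hex, ?_⟩
    intro i hi
    have h1 := Nat.find_min hex hi
    push Not at h1
    exact lt_of_le_of_ne h1 (hne i).symm
  have hmax := XX_lt hp r hy0 hy1 j hj1 hj2
  -- the terms
  set T : ℕ → K := fun n => (-1 : K) ^ n * y ^ (n + 1) / ((n : K) + 1) with hT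
  have hTn : ∀ n, ‖T n‖ = (p : ℝ) ^ (padicValNat p (n + 1)) * r ^ (n + 1) := by
    intro n
    have h1 := Pool.Agent.ZPK.H27.nrm_val hp K hE (n + 1) (by omega)
    have h2 : ((n : K) + 1) = ((n + 1 : ℕ) : K) := by push_cast; ring
    rw [hT]
    simp only []
    rw [norm_div, norm_mul, norm_pow, norm_pow, norm_neg, norm_one, one_pow, one_mul, h2, h1,
      inv_pow, div_inv_eq_mul, mul_comm]
  have hn0 : ∃ n0, n0 + 1 = p ^ j := ⟨p ^ j - 1, by
    have : 0 < p ^ j := Nat.pow_pos hp.pos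
    omega⟩
  obtain ⟨n0, hn0⟩ := hn0
  have hT0 : ‖T n0‖ = XX p r j := by
    rw [hTn, hn0, padicValNat.prime_pow]
    rfl
  have hTlt : ∀ n, n ≠ n0 → ‖T n‖ < XX p r j := by
    intro n hn
    rw [hTn]
    set i := padicValNat p (n + 1) with hi
    have hdvd : p ^ i ∣ n + 1 := pow_padicValNat_dvd
    have hle : p ^ i ≤ n + 1 := Nat.le_of_dvd (by omega) hdvd
    by_cases hij : i = j
    · have hlt : p ^ j < n + 1 := by
        rw [← hij]
        refine lt_of_le_of_ne hle ?_
        intro h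
        apply hn
        rw [hij] at h
        omega
      rw [hij]
      unfold XX
      exact mul_lt_mul_of_pos_left (pow_lt_pow_right_of_lt_one₀ hy0 hy1 hlt) (by positivity)
    · refine lt_of_le_of_lt ?_ (hmax i hij)
      unfold XX
      exact mul_le_mul_of_nonneg_left (pow_le_pow_of_le_one hy0.le hy1.le hle) (by positivity)
  have hXj : 0 < XX p r j := by unfold XX; positivity
  have hser := hL.ser y hy1
  have hten : Filter.Tendsto (fun n => ‖T n‖) Filter.atTop (nhds 0) := by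
    have h1 := hser.summable.tendsto_atTop_zero
    have h2 := h1.norm
    rw [norm_zero] at h2
    exact h2
  obtain ⟨N, hN⟩ : ∃ N, ∀ n, N ≤ n → ‖T n‖ < XX p r j / 2 := by
    have h1 := hten.eventually (gt_mem_nhds (half_pos hXj))
    rw [Filter.eventually_atTop] at h1
    exact h1
  have hfin : ∀ M : ℕ, ∃ C, 0 ≤ C ∧ C < XX p r j ∧ ∀ n < M, n ≠ n0 → ‖T n‖ ≤ C := by
    intro M
    induction M with
    | zero => exact ⟨0, le_refl _, hXj, fun n hn => absurd hn (by omega)⟩
    | succ M ih =>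
      obtain ⟨C, hC0, hC1, hC2⟩ := ih
      by_cases hM : M = n0
      · refine ⟨C, hC0, hC1, ?_⟩
        intro n hn hnn
        exact hC2 n (by omega) hnn
      · refine ⟨max C ‖T M‖, le_trans hC0 (le_max_left _ _), max_lt hC1 (hTlt M hM), ?_⟩
        intro n hn hnn
        rcases Nat.lt_succ_iff_lt_or_eq.mp hn with h | h
        · exact le_trans (hC2 n h hnn) (le_max_left _ _)
        · rw [h]; exact le_max_right _ _
  obtain ⟨C, hC0, hC1, hC2⟩ := hfin N
  have hall : ∀ n, n ≠ n0 → ‖T n‖ ≤ max C (XX p r j / 2) := by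
    intro n hn
    rcases lt_or_ge n N with h | h
    · exact le_trans (hC2 n h hn) (le_max_left _ _)
    · exact le_trans (hN n h).le (le_max_right _ _)
  have hsum2 : HasSum (fun n => if n = n0 then 0 else T n) (Log (1 + y) - T n0) :=
    hasSum_ite_sub_hasSum hser n0
  have hsmall : ‖Log (1 + y) - T n0‖ ≤ max C (XX p r j / 2) := by
    refine Pool.Agent.ZPK.H27.hs_le _ _ _ hsum2 (le_trans hC0 (le_max_left _ _)) ?_
    intro n
    by_cases h : n = n0
    · simp only [h, if_true, norm_zero]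
      exact le_trans hC0 (le_max_left _ _)
    · simp only [h, if_false]
      exact hall n h
  have hlt : ‖Log (1 + y) - T n0‖ < ‖T n0‖ := by
    rw [hT0]
    exact lt_of_le_of_lt hsmall (max_lt hC1 (half_lt_self hXj))
  have hnorm : ‖Log (1 + y)‖ = XX p r j := by
    have h1 := IsUltrametricDist.norm_add_eq_max_of_norm_ne_norm (x := Log (1 + y) - T n0)
      (y := T n0) hlt.ne
    rw [sub_add_cancel, max_eq_right hlt.le, hT0] at h1
    exact h1
  refine ⟨j, hj1, fun h => hj2 (j - 1) (by omega), hnorm, ?_⟩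
  rw [hnorm]
  have h0 : XX p r 0 = r := by simp [XX]
  by_cases h : j = 0
  · rw [h, h0]
  · have := hmax 0 (fun h' => h h'.symm)
    rw [h0] at this
    exact this.le

end Pool.Agent.ZPK.H43
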