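import Pool.Agent.ZPK.StmtsR2
import Pool.Agent.Helper27_ZPK.LGB

/-! Squad ZPK, common part of the rows SYA and SYB (helper43). -/

set_option autoImplicit false

namespace Pool.Agent.ZPK.H43

open Pool.Agent.ZPT Pool.Agent.ZP3

section

variable {K : Type} [NormedField K]

theorem ro_norm {x : K} (hx : Ro x) : ‖x‖ = 1 := by
  obtain ⟨M, hM, h⟩ := hx
  have h1 : ‖x‖ ^ M = 1 := by rw [← norm_pow, h, norm_one]
  exact (pow_eq_one_iff_of_nonneg (norm_nonneg _) (by omega)).mp h1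

theorem ro_ne {x : K} (hx : Ro x) : x ≠ 0 := by
  intro h
  have := ro_norm hx
  rw [h, norm_zero] at this
  exact zero_ne_one this

theorem ro_mul {x y : K} (hx : Ro x) (hy : Ro y) : Ro (x * y) := by
  obtain ⟨M, hM, h⟩ := hx
  obtain ⟨N, hN, h'⟩ := hy
  refine ⟨M * N, Nat.mul_pos hM hN, ?_⟩
  rw [mul_pow, pow_mul, h, one_pow, mul_comm M N, pow_mul, h', one_pow, mul_one]

theorem ro_pow {x : K} (hx : Ro x) (m : ℕ) : Ro (x ^ m) := by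
  obtain ⟨M, hM, h⟩ := hx
  refine ⟨M, hM, ?_⟩
  rw [← pow_mul, mul_comm, pow_mul, h, one_pow]

theorem ro_inv {x : K} (hx : Ro x) : Ro x⁻¹ := by
  obtain ⟨M, hM, h⟩ := hx
  exact ⟨M, hM, by rw [inv_pow, h, inv_one]⟩

theorem ro_root {x y : K} {e : ℕ} (he : 1 ≤ e) (h : x ^ e = y) (hy : Ro y) : Ro x := by
  obtain ⟨M, hM, h'⟩ := hy
  exact ⟨e * M, Nat.mul_pos he hM, by rw [pow_mul, h, h']⟩

variable [IsUltrametricDist K]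

theorem nsub (x y : K) : ‖x - y‖ ≤ max ‖x‖ ‖y‖ := by
  rw [sub_eq_add_neg]
  simpa using IsUltrametricDist.norm_add_le_max x (-y)

theorem u_norm {x : K} {δ : ℝ} (hδ : δ < 1) (hx : ‖x - 1‖ ≤ δ) : ‖x‖ = 1 := by
  have h1 : ‖x - 1‖ ≠ ‖(1 : K)‖ := by
    rw [norm_one]; exact (lt_of_le_of_lt hx hδ).ne
  have h2 := IsUltrametricDist.norm_add_eq_max_of_norm_ne_norm h1
  rw [sub_add_cancel, norm_one, max_eq_right (lt_of_le_of_lt hx hδ).le] at h2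
  exact h2

theorem u_ne {x : K} {δ : ℝ} (hδ : δ < 1) (hx : ‖x - 1‖ ≤ δ) : x ≠ 0 := by
  intro h
  have := u_norm hδ hx
  rw [h, norm_zero] at this
  exact zero_ne_one this

theorem u_mul {x y : K} {δ : ℝ} (hδ : δ < 1) (hx : ‖x - 1‖ ≤ δ) (hy : ‖y - 1‖ ≤ δ) :
    ‖x * y - 1‖ ≤ δ := by
  have h : x * y - 1 = x * (y - 1) + (x - 1) := by ring
  rw [h]
  refine (IsUltrametricDist.norm_add_le_max _ _).trans (max_le ?_ hx)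
  rw [norm_mul, u_norm hδ hx, one_mul]
  exact hy

theorem u_inv {x : K} {δ : ℝ} (hδ : δ < 1) (hx : ‖x - 1‖ ≤ δ) : ‖x⁻¹ - 1‖ ≤ δ := by
  have h0 := u_ne hδ hx
  have h : x⁻¹ - 1 = -(x⁻¹ * (x - 1)) := by field_simp; ring
  rw [h, norm_neg, norm_mul, norm_inv, u_norm hδ hx, inv_one, one_mul]
  exact hx

theorem u_div {x y : K} {δ : ℝ} (hδ : δ < 1) (hx : ‖x - 1‖ ≤ δ) (hy : ‖y - 1‖ ≤ δ) :
    ‖x / y - 1‖ ≤ δ := by
  rw [div_eq_mul_inv]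
  exact u_mul hδ hx (u_inv hδ hy)

theorem u_pow {x : K} {δ : ℝ} (hδ0 : 0 ≤ δ) (hδ : δ < 1) (hx : ‖x - 1‖ ≤ δ) (n : ℕ) :
    ‖x ^ n - 1‖ ≤ δ := by
  induction n with
  | zero => simpa using hδ0
  | succ n ih => rw [pow_succ]; exact u_mul hδ ih hx

end

section

variable {K : Type} [NormedField K] [CharZero K] [IsUltrametricDist K]

/-- the `p`-th power of `1 + x` -/
theorem pw1 {p : ℕ} (hp : p.Prime) (hK : Ext p K) (x : K) (δ : ℝ) (hδ : δ ≤ 1)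
    (hx : ‖x - 1‖ ≤ δ) : ‖x ^ p - 1‖ ≤ max (δ ^ p) (δ * (p : ℝ)⁻¹) := by
  have hδ0 : 0 ≤ δ := le_trans (norm_nonneg _) hx
  obtain ⟨q, hq⟩ : ∃ q, p = q + 1 := ⟨p - 1, by have := hp.one_lt; omega⟩
  set e : K := x - 1 with he
  have hxe : x = 1 + e := by rw [he]; ring
  have h1 : (1 + e) ^ p - 1 = (∑ m ∈ Finset.range q, e ^ (m + 1) * (p.choose (m + 1) : K)) +
      e ^ p := by
    rw [add_comm 1 e, add_pow, Finset.sum_range_succ]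
    conv_lhs => rw [hq]
    rw [Finset.sum_range_succ']
    rw [← hq]
    simp only [one_pow, mul_one, pow_zero, Nat.choose_zero_right, Nat.cast_one, Nat.choose_self]
    ring
  rw [hxe, h1]
  refine (IsUltrametricDist.norm_add_le_max _ _).trans ?_
  rw [max_comm]
  refine max_le_max (by rw [norm_pow]; exact pow_le_pow_left₀ (norm_nonneg _) hx p) ?_
  refine IsUltrametricDist.norm_sum_le_of_forall_le_of_nonneg (by positivity) fun m hm => ?_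
  have hm' := Finset.mem_range.1 hm
  obtain ⟨c, hc⟩ := hp.dvd_choose_self (k := m + 1) (by omega) (by omega)
  rw [hc]
  push_cast
  rw [norm_mul, norm_mul, Pool.Agent.ZPK.H27.nrm_p hp K hK, norm_pow]
  have h2 : ‖(c : K)‖ ≤ 1 := Pool.Agent.ZPK.H27.nrm_le_one hp K hK c
  have h3 : ‖e‖ ^ (m + 1) ≤ δ := by
    calc ‖e‖ ^ (m + 1) ≤ δ ^ (m + 1) := pow_le_pow_left₀ (norm_nonneg _) hx _
      _ ≤ δ ^ 1 := pow_le_pow_of_le_one hδ0 hδ (by omega)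
      _ = δ := pow_one δ
  have h4 : 0 ≤ (p : ℝ)⁻¹ := by positivity
  calc ‖e‖ ^ (m + 1) * ((p : ℝ)⁻¹ * ‖(c : K)‖) ≤ δ * ((p : ℝ)⁻¹ * 1) := by
        refine mul_le_mul h3 (mul_le_mul_of_nonneg_left h2 h4) (by positivity) hδ0
    _ = δ * (p : ℝ)⁻¹ := by ring

/-- the power `p ^ k`, `k ≥ 1` -/
theorem pwk {p : ℕ} (hp : p.Prime) (hK : Ext p K) (x : K) (δ : ℝ) (hδ : δ < 1)
    (hx : ‖x - 1‖ ≤ δ) (hδp : δ ^ p ≤ δ * (p : ℝ)⁻¹) (k : ℕ) (hk : 1 ≤ k) :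
    ‖x ^ (p ^ k) - 1‖ ≤ δ * (p : ℝ)⁻¹ := by
  have hδ0 : 0 ≤ δ := le_trans (norm_nonneg _) hx
  have hp1 : (1 : ℝ) ≤ p := by exact_mod_cast hp.one_lt.le
  have hi : (p : ℝ)⁻¹ ≤ 1 := inv_le_one_of_one_le₀ hp1
  have hi0 : 0 ≤ (p : ℝ)⁻¹ := by positivity
  have h1 := pw1 hp hK x δ hδ.le hx
  rw [max_eq_right hδp] at h1
  obtain ⟨j, rfl⟩ : ∃ j, k = j + 1 := ⟨k - 1, by omega⟩
  have h2 : x ^ (p ^ (j + 1)) = (x ^ p) ^ (p ^ j) := by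
    rw [← pow_mul, pow_succ, mul_comm]
  rw [h2]
  have h3 : δ * (p : ℝ)⁻¹ < 1 := by
    calc δ * (p : ℝ)⁻¹ ≤ δ * 1 := mul_le_mul_of_nonneg_left hi hδ0
      _ < 1 := by rwa [mul_one]
  exact u_pow (by positivity) h3 h1 _

/-- the linear approximation -/
theorem lin {p : ℕ} (hp : p.Prime) (hK : Ext p K) (z : K) (η : ℝ) (hη : η ≤ 1)
    (hz : ‖z‖ ≤ η) (Q : ℕ) : ‖(1 + z) ^ Q - (1 + (Q : K) * z)‖ ≤ η ^ 2 := by
  have hη0 : 0 ≤ η := le_trans (norm_nonneg _) hz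
  induction Q with
  | zero => simp; positivity
  | succ Q ih =>
    have h : (1 + z) ^ (Q + 1) - (1 + ((Q + 1 : ℕ) : K) * z) =
        ((1 + z) ^ Q - (1 + (Q : K) * z)) * (1 + z) + (Q : K) * z ^ 2 := by
      push_cast
      ring
    rw [h]
    refine (IsUltrametricDist.norm_add_le_max _ _).trans (max_le ?_ ?_)
    · rw [norm_mul]
      have h1 : ‖1 + z‖ ≤ 1 := by
        refine (IsUltrametricDist.norm_add_le_max _ _).trans (max_le ?_ (hz.trans hη))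
        rw [norm_one]
      calc ‖(1 + z) ^ Q - (1 + (Q : K) * z)‖ * ‖1 + z‖ ≤ η ^ 2 * 1 :=
            mul_le_mul ih h1 (norm_nonneg _) (by positivity)
        _ = η ^ 2 := mul_one _
    · rw [norm_mul, norm_pow]
      calc ‖(Q : K)‖ * ‖z‖ ^ 2 ≤ 1 * η ^ 2 :=
            mul_le_mul (Pool.Agent.ZPK.H27.nrm_le_one hp K hK Q)
              (pow_le_pow_left₀ (norm_nonneg _) hz 2) (by positivity) zero_le_one
        _ = η ^ 2 := one_mul _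

/-- the quotient of the powers -/
theorem quo {p : ℕ} (hp : p.Prime) (hK : Ext p K) (z₁ z₂ κ₁ κ₂ c : K) (η : ℝ) (hη : η < 1)
    (h1 : ‖z₁‖ ≤ η) (h2 : ‖z₂‖ ≤ η) (k1 : ‖z₁ - κ₁‖ ≤ η ^ 2) (k2 : ‖z₂ - κ₂‖ ≤ η ^ 2) (Q : ℕ)
    (hc : ‖c‖ ≤ η) (hcQ : ‖c - (Q : K) * (κ₁ - κ₂)‖ ≤ η ^ 2) :
    ‖(1 + z₁) ^ Q / ((1 + z₂) ^ Q * (1 + c)) - 1‖ ≤ η ^ 2 := by
  have hη0 : 0 ≤ η := le_trans (norm_nonneg _) h1
  have hQ : ‖(Q : K)‖ ≤ 1 := Pool.Agent.ZPK.H27.nrm_le_one hp K hK Q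
  have u2 : ‖(1 + z₂) - 1‖ ≤ η := by simpa using h2
  have uc : ‖(1 + c) - 1‖ ≤ η := by simpa using hc
  have uD := u_mul hη (u_pow hη0 hη u2 Q) uc
  have hD0 := u_ne hη uD
  have hD1 := u_norm hη uD
  have l1 := lin hp hK z₁ η hη.le h1 Q
  have l2 := lin hp hK z₂ η hη.le h2 Q
  have hc1 : ‖1 + c‖ = 1 := u_norm hη uc
  have e : (1 + z₁) ^ Q / ((1 + z₂) ^ Q * (1 + c)) - 1 =
      (((1 + z₁) ^ Q - (1 + (Q : K) * z₁)) - ((1 + z₂) ^ Q - (1 + (Q : K) * z₂)) * (1 + c) +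
        ((Q : K) * (z₁ - κ₁) - (Q : K) * (z₂ - κ₂) - (c - (Q : K) * (κ₁ - κ₂)) -
          (Q : K) * z₂ * c)) / ((1 + z₂) ^ Q * (1 + c)) := by
    rw [eq_div_iff hD0, sub_mul, div_mul_cancel₀ _ hD0]
    ring
  rw [e, norm_div, hD1, div_one]
  have hz2c : ‖(Q : K) * z₂ * c‖ ≤ η ^ 2 := by
    rw [norm_mul, norm_mul]
    calc ‖(Q : K)‖ * ‖z₂‖ * ‖c‖ ≤ 1 * η * η :=
          mul_le_mul (mul_le_mul hQ h2 (norm_nonneg _) zero_le_one) hc (norm_nonneg _)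
            (by positivity)
      _ = η ^ 2 := by ring
  have hQ1 : ‖(Q : K) * (z₁ - κ₁)‖ ≤ η ^ 2 := by
    rw [norm_mul]
    calc ‖(Q : K)‖ * ‖z₁ - κ₁‖ ≤ 1 * η ^ 2 := mul_le_mul hQ k1 (norm_nonneg _) zero_le_one
      _ = η ^ 2 := one_mul _
  have hQ2 : ‖(Q : K) * (z₂ - κ₂)‖ ≤ η ^ 2 := by
    rw [norm_mul]
    calc ‖(Q : K)‖ * ‖z₂ - κ₂‖ ≤ 1 * η ^ 2 := mul_le_mul hQ k2 (norm_nonneg _) zero_le_one
      _ = η ^ 2 := one_mul _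
  refine (IsUltrametricDist.norm_add_le_max _ _).trans (max_le ?_ ?_)
  · refine (nsub _ _).trans (max_le l1 ?_)
    rw [norm_mul, hc1, mul_one]
    exact l2
  · refine (nsub _ _).trans (max_le ?_ hz2c)
    refine (nsub _ _).trans (max_le ?_ hcQ)
    exact (nsub _ _).trans (max_le hQ1 hQ2)

/-- natural numbers less than `p` -/
theorem nrm_lt {p : ℕ} (hp : p.Prime) (hK : Ext p K) (e : ℕ) (he : 1 ≤ e) (hep : e < p) :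
    ‖(e : K)‖ = 1 :=
  Pool.Agent.ZPK.H27.nrm_unit hp K hK e (fun h => absurd (Nat.le_of_dvd he h) (by omega))

/-- the element `c` of `L` -/
theorem exC (hLGB : LgbStmt) (hUNV : UnvStmt) (hLGL : LglStmt) {p : ℕ} (hp : p.Prime)
    (h5 : 5 ≤ p) (hK : Ext p K) (Log : K → K) (hL : IsLog p Log) (L : Subfield K)
    (hUn : Unr p L) (a₁ a₂ : K) (e₁ e₂ Q : ℕ) (ha₁ : a₁ ∈ L) (ha₂ : a₂ ∈ L) (n₁ : ‖a₁‖ = 1)
    (n₂ : ‖a₂‖ = 1) (he₁ : 1 ≤ e₁) (he₂ : 1 ≤ e₂) (hp₁ : e₁ < p) (hp₂ : e₂ < p) :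
    ∃ c ∈ L, ‖c‖ ≤ (p : ℝ)⁻¹ ∧
      ‖c - (Q : K) * (Log a₁ / (e₁ : K) - Log a₂ / (e₂ : K))‖ ≤ ((p : ℝ)⁻¹) ^ 2 := by
  have hp0 : (0 : ℝ) < (p : ℝ) := by exact_mod_cast hp.pos
  have hi0 : (0 : ℝ) < (p : ℝ)⁻¹ := inv_pos.mpr hp0
  have hi1 : (p : ℝ)⁻¹ ≤ 1 := inv_le_one_of_one_le₀ (by exact_mod_cast hp.one_lt.le)
  obtain ⟨-, -, -, -, -, hlog, -⟩ := hLGB p hp h5 K hK Log hL
  have hur := (hUNV p hp K hK L hUn).1
  have hl₁ := hlog a₁ ⟨hur a₁ ha₁ n₁.le, n₁⟩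
  have hl₂ := hlog a₂ ⟨hur a₂ ha₂ n₂.le, n₂⟩
  obtain ⟨x₁, hx₁, d₁⟩ := (hLGL p hp h5 K hK Log hL L hUn).1 a₁ ha₁ n₁ (((p : ℝ)⁻¹) ^ 2)
    (by positivity)
  obtain ⟨x₂, hx₂, d₂⟩ := (hLGL p hp h5 K hK Log hL L hUn).1 a₂ ha₂ n₂ (((p : ℝ)⁻¹) ^ 2)
    (by positivity)
  have ne₁ := nrm_lt hp hK e₁ he₁ hp₁
  have ne₂ := nrm_lt hp hK e₂ he₂ hp₂
  have hQ : ‖(Q : K)‖ ≤ 1 := Pool.Agent.ZPK.H27.nrm_le_one hp K hK Q
  have hdiff : ‖(Q : K) * (x₁ / (e₁ : K) - x₂ / (e₂ : K)) -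
      (Q : K) * (Log a₁ / (e₁ : K) - Log a₂ / (e₂ : K))‖ ≤ ((p : ℝ)⁻¹) ^ 2 := by
    have e : (Q : K) * (x₁ / (e₁ : K) - x₂ / (e₂ : K)) -
        (Q : K) * (Log a₁ / (e₁ : K) - Log a₂ / (e₂ : K)) =
        (Q : K) * ((Log a₂ - x₂) / (e₂ : K) - (Log a₁ - x₁) / (e₁ : K)) := by ring
    rw [e, norm_mul]
    have h1 : ‖(Log a₂ - x₂) / (e₂ : K) - (Log a₁ - x₁) / (e₁ : K)‖ ≤ ((p : ℝ)⁻¹) ^ 2 := by
      refine (nsub _ _).trans (max_le ?_ ?_)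
      · rw [norm_div, ne₂, div_one]; exact d₂
      · rw [norm_div, ne₁, div_one]; exact d₁
    calc ‖(Q : K)‖ * ‖(Log a₂ - x₂) / (e₂ : K) - (Log a₁ - x₁) / (e₁ : K)‖
        ≤ 1 * ((p : ℝ)⁻¹) ^ 2 := mul_le_mul hQ h1 (norm_nonneg _) zero_le_one
      _ = ((p : ℝ)⁻¹) ^ 2 := one_mul _
  have hmain : ‖(Q : K) * (Log a₁ / (e₁ : K) - Log a₂ / (e₂ : K))‖ ≤ (p : ℝ)⁻¹ := by
    rw [norm_mul]
    have h1 : ‖Log a₁ / (e₁ : K) - Log a₂ / (e₂ : K)‖ ≤ (p : ℝ)⁻¹ := by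
      refine (nsub _ _).trans (max_le ?_ ?_)
      · rw [norm_div, ne₁, div_one]; exact hl₁
      · rw [norm_div, ne₂, div_one]; exact hl₂
    calc ‖(Q : K)‖ * ‖Log a₁ / (e₁ : K) - Log a₂ / (e₂ : K)‖ ≤ 1 * (p : ℝ)⁻¹ :=
          mul_le_mul hQ h1 (norm_nonneg _) zero_le_one
      _ = (p : ℝ)⁻¹ := one_mul _
  refine ⟨(Q : K) * (x₁ / (e₁ : K) - x₂ / (e₂ : K)), ?_, ?_, hdiff⟩
  · exact L.mul_mem (natCast_mem L Q) (L.sub_mem (L.div_mem hx₁ (natCast_mem L e₁))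
      (L.div_mem hx₂ (natCast_mem L e₂)))
  · have e : (Q : K) * (x₁ / (e₁ : K) - x₂ / (e₂ : K)) =
        ((Q : K) * (x₁ / (e₁ : K) - x₂ / (e₂ : K)) -
          (Q : K) * (Log a₁ / (e₁ : K) - Log a₂ / (e₂ : K))) +
          (Q : K) * (Log a₁ / (e₁ : K) - Log a₂ / (e₂ : K)) := by ring
    rw [e]
    refine (IsUltrametricDist.norm_add_le_max _ _).trans (max_le (hdiff.trans ?_) hmain)
    calc ((p : ℝ)⁻¹) ^ 2 = (p : ℝ)⁻¹ * (p : ℝ)⁻¹ := sq _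
      _ ≤ (p : ℝ)⁻¹ * 1 := mul_le_mul_of_nonneg_left hi1 hi0.le
      _ = (p : ℝ)⁻¹ := mul_one _

/-- numbers: `rh < th`, `rh ^ p ≤ rh / p`, and the same for `rh / th ^ 2` -/
theorem nums (hTHB : THBStmt) (hNUM : NumStmt) {p E : ℕ} (hp : p.Prime) (hE : 1 ≤ E)
    (hpE : 1000 * (E + 1) ^ 2 < p) :
    5 ≤ p ∧ E < p ∧ 0 < th p ∧ th p < 1 ∧ (p : ℝ)⁻¹ < th p ∧ (p : ℝ)⁻¹ ≤ rh p E ∧ 0 < rh p E ∧
      rh p E < 1 ∧ rh p E < th p ∧ rh p E < th p ^ 2 ∧ rh p E ^ p ≤ rh p E * (p : ℝ)⁻¹ ∧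
      rh p E / th p ^ 2 < 1 ∧
      (rh p E / th p ^ 2) ^ p ≤ rh p E / th p ^ 2 * (p : ℝ)⁻¹ := by
  have h5 : 5 ≤ p := by nlinarith
  have hEp : E < p := by nlinarith
  obtain ⟨t1, t2, t3, t4, -⟩ := hTHB p hp h5
  obtain ⟨m1, m2, m3, -⟩ := hNUM p E hp hE hpE
  have hr1 : rh p E < th p ^ 3 := lt_of_lt_of_le m3 (pow_le_pow_of_le_one t2.le t3.le (by norm_num))
  have hr2 : rh p E < th p ^ 2 := lt_of_lt_of_le m3 (pow_le_pow_of_le_one t2.le t3.le (by norm_num))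
  have hr3 : rh p E < th p := by
    have := lt_of_lt_of_le m3 (pow_le_pow_of_le_one t2.le t3.le (by norm_num : 1 ≤ 20))
    rwa [pow_one] at this
  have hi : (p : ℝ)⁻¹ < th p := by
    have := lt_of_lt_of_le t4 (pow_le_pow_of_le_one t2.le t3.le (by norm_num : 1 ≤ 3))
    rwa [pow_one] at this
  have hq : ∀ x : ℝ, 0 ≤ x → x ≤ th p → x ^ p ≤ x * (p : ℝ)⁻¹ := by
    intro x hx0 hx
    obtain ⟨q, hq⟩ : ∃ q, p = q + 1 := ⟨p - 1, by omega⟩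
    have h1 : x ^ p = x * x ^ (p - 1) := by
      conv_lhs => rw [hq, pow_succ, mul_comm]
      rw [hq, Nat.add_sub_cancel]
    rw [h1, ← t1]
    exact mul_le_mul_of_nonneg_left (pow_le_pow_left₀ hx0 hx _) hx0
  have hth2 : 0 < th p ^ 2 := by positivity
  have hd : rh p E / th p ^ 2 ≤ th p := by
    rw [div_le_iff₀ hth2]
    calc rh p E ≤ th p ^ 3 := hr1.le
      _ = th p * th p ^ 2 := by ring
  exact ⟨h5, hEp, t2, t3, hi, m1, m2, hr3.trans t3, hr3, hr2, hq _ m2.le hr3.le,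
    lt_of_le_of_lt hd t3, hq _ (by positivity) hd⟩

/-- powers of unramified units -/
theorem gp (hTEI : TeiStmt) [CompleteSpace K] [IsAlgClosed K] {p : ℕ} (hp : p.Prime) (h5 : 5 ≤ p)
    (hK : Ext p K) (Log : K → K) (hL : IsLog p Log) (g : K) (hg : Uu p g) (k : ℕ) (hk : 1 ≤ k) :
    ∃ η u : K, Ro η ∧ ‖u - 1‖ ≤ (p : ℝ)⁻¹ * (p : ℝ)⁻¹ ∧ g ^ (p ^ k) = η * u := by
  obtain ⟨ω, z, hω, hz, hz1, -⟩ := hTEI p hp h5 K hK Log hL g hg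
  have hp0 : (0 : ℝ) < (p : ℝ) := by exact_mod_cast hp.pos
  have hi0 : (0 : ℝ) < (p : ℝ)⁻¹ := inv_pos.mpr hp0
  have hi1 : (p : ℝ)⁻¹ < 1 := inv_lt_one_of_one_lt₀ (by exact_mod_cast hp.one_lt)
  refine ⟨ω ^ (p ^ k), (1 + z) ^ (p ^ k), ro_pow hω _, ?_, ?_⟩
  · refine pwk hp hK (1 + z) (p : ℝ)⁻¹ hi1 (by simpa using hz1) ?_ k hk
    calc ((p : ℝ)⁻¹) ^ p ≤ ((p : ℝ)⁻¹) ^ 2 :=
          pow_le_pow_of_le_one hi0.le hi1.le (by omega)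
      _ = (p : ℝ)⁻¹ * (p : ℝ)⁻¹ := sq _
  · rw [hz, mul_pow]

/-- one pair -/
theorem pair (hURT : URTStmt) (hTHB : THBStmt) (hWTM : WTMStmt) (hMTH : MTHStmt)
    (hLGB : LgbStmt) (hUNV : UnvStmt) (hNUM : NumStmt) (hTEI : TeiStmt)
    [CompleteSpace K] [IsAlgClosed K] {p E : ℕ} (hp : p.Prime) (hE1 : 1 ≤ E)
    (hpE : 1000 * (E + 1) ^ 2 < p) (hK : Ext p K) (Log : K → K) (hL : IsLog p Log)
    (L : Subfield K) (hUn : Unr p L) (s : ℚ) (e e' m β : ℕ) (t a F n g l G : K)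
    (he : 1 ≤ e ∧ e ≤ E) (hm : 1 ≤ m)
    (hs : ((m : ℚ) + e' * (p : ℚ) ^ β) * s = (p : ℚ) ^ β) (haL : a ∈ L)
    (ha1 : ‖a‖ = 1) (hg1 : ‖g‖ = 1) (hl1 : ‖l‖ ≤ 1) (r : Rp p Log s e t a F n)
    (hF : ‖F - 1‖ ≤ rh p E) (hn : ‖n - g * (1 + l * (p / t ^ e'))‖ ≤ rh p E)
    (hw : ‖(p : K) / t ^ e'‖ < 1) (hG1 : ‖G - 1‖ < 1) (hG : G ^ e = F ^ m) :
    ∃ ζ z f : K, Ro ζ ∧ ‖z‖ ≤ (p : ℝ)⁻¹ ∧ ‖z - Log a / (e : K)‖ ≤ ((p : ℝ)⁻¹) ^ 2 ∧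
      ‖f - 1‖ ≤ rh p E ∧ f ^ m = G ∧ ‖n‖ = 1 ∧
      t ^ (m + e' * p ^ β) = ζ * ((1 + z) ^ (m + e' * p ^ β) * f ^ (m + e' * p ^ β)) *
        ((p : K) / n) ^ (p ^ β) := by
  obtain ⟨h5, hEp, th0, th1, hith, hirh, rh0, rh1, hrt, hrt2, hrp, -, -⟩ :=
    nums hTHB hNUM hp hE1 hpE
  have hep : e < p := lt_of_le_of_lt he.2 hEp
  have hnd : ¬ p ∣ e := fun h => absurd (Nat.le_of_dvd he.1 h) (by omega)
  have hpK : (p : K) ≠ 0 := Nat.cast_ne_zero.mpr hp.ne_zero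
  -- the norm of n
  have hnn : ‖n‖ = 1 := by
    have h1 : ‖l * ((p : K) / t ^ e')‖ < 1 := by
      rw [norm_mul]
      calc ‖l‖ * ‖(p : K) / t ^ e'‖ ≤ 1 * ‖(p : K) / t ^ e'‖ :=
            mul_le_mul_of_nonneg_right hl1 (norm_nonneg _)
        _ < 1 := by rwa [one_mul]
    have h2 : ‖1 + l * ((p : K) / t ^ e')‖ = 1 := by
      have h3 : ‖(1 + l * ((p : K) / t ^ e')) - 1‖ ≤ ‖l * ((p : K) / t ^ e')‖ := by
        rw [add_sub_cancel_left]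
      exact u_norm h1 h3
    have h3 : ‖g * (1 + l * ((p : K) / t ^ e'))‖ = 1 := by rw [norm_mul, hg1, h2, one_mul]
    have h4 : ‖n - g * (1 + l * ((p : K) / t ^ e'))‖ ≠ ‖g * (1 + l * ((p : K) / t ^ e'))‖ := by
      rw [h3]; exact (lt_of_le_of_lt hn rh1).ne
    have h5 := IsUltrametricDist.norm_add_eq_max_of_norm_ne_norm h4
    rw [sub_add_cancel, h3, max_eq_right (lt_of_le_of_lt hn rh1).le] at h5
    exact h5
  have hn0 : n ≠ 0 := by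
    intro h
    rw [h, norm_zero] at hnn
    exact zero_ne_one hnn
  -- the root of a
  obtain ⟨b, hb⟩ := IsAlgClosed.exists_pow_nat_eq a he.1
  have hb1 : ‖b‖ = 1 := by
    have h1 : ‖b‖ ^ e = 1 := by rw [← norm_pow, hb, ha1]
    exact (pow_eq_one_iff_of_nonneg (norm_nonneg _) (by omega)).mp h1
  have hb0 : b ≠ 0 := by
    intro h
    rw [h, norm_zero] at hb1
    exact zero_ne_one hb1
  have hbu : Uu p b := (hURT p hp K hK).2 b e he.1 hnd hb1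
    (by rw [hb]; exact (hUNV p hp K hK L hUn).1 a haL ha1.le)
  obtain ⟨ω, z, hω, hbz, hz1, hz2⟩ := hTEI p hp h5 K hK Log hL b hbu
  obtain ⟨⟨-, hlogz⟩, -, -, -, -, -, -⟩ := hLGB p hp h5 K hK Log hL
  have heK : (e : K) ≠ 0 := Nat.cast_ne_zero.mpr (by omega)
  have hloga : Log a / (e : K) = Log b := by
    have h1 := hlogz b (e : ℤ) hb0
    rw [zpow_natCast, hb] at h1
    rw [h1]
    push_cast
    field_simp
  -- the root of F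
  obtain ⟨f, hf1, hf2⟩ := hMTH p hp K hK e F 1 (rh p E) he.1 hnd one_ne_zero rh1
    (by rw [one_pow, norm_one, mul_one]; exact hF)
  rw [norm_one, mul_one] at hf2
  have hf0 : f ≠ 0 := u_ne rh1 hf2
  have hF0 : F ≠ 0 := by rw [← hf1]; exact pow_ne_zero _ hf0
  have hfm : f ^ m = G := by
    have hG0 : G ≠ 0 := by
      intro h
      rw [h, zero_pow (by omega)] at hG
      exact pow_ne_zero m hF0 hG.symm
    have h1 : (f ^ m / G) ^ e = 1 := by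
      rw [div_pow, hG, ← pow_mul, mul_comm m e, pow_mul, hf1, div_self (pow_ne_zero _ hF0)]
    have h2 : ‖f ^ m / G - 1‖ ≤ max (rh p E) ‖G - 1‖ := by
      have h3 : max (rh p E) ‖G - 1‖ < 1 := max_lt rh1 hG1
      refine u_div h3 ?_ (le_max_right _ _)
      exact u_pow (le_trans rh0.le (le_max_left _ _)) h3 (hf2.trans (le_max_left _ _)) m
    have h3 := hWTM p hp K hK (f ^ m / G) ⟨e, he.1, hnd, h1⟩
      (lt_of_le_of_lt h2 (max_lt rh1 hG1))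
    rwa [div_eq_one_iff_eq hG0] at h3
  -- the relation
  set Q : ℕ := m + e' * p ^ β with hQ
  have hQ1 : 1 ≤ Q := by omega
  obtain ⟨ζ₀, hζ₀, hrel⟩ := r.rt Q (p ^ β) hQ1 (by
    rw [hQ]
    push_cast
    linear_combination (-1 : ℚ) * hs)
  have ha0 : a ≠ 0 := by rw [← hb]; exact pow_ne_zero _ hb0
  have hpn0 : ((p : K) / n) ^ (p ^ β) ≠ 0 := pow_ne_zero _ (div_ne_zero hpK hn0)
  set ζ₁ : K := (t / (b * f)) ^ Q / ((p : K) / n) ^ (p ^ β) with hζ₁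
  have hζ₁e : ζ₁ ^ e = ζ₀ := by
    have h1 : ζ₁ ^ e = (t ^ e / (a * F)) ^ Q / ((p : K) / n) ^ (e * p ^ β) := by
      rw [hζ₁, div_pow, ← pow_mul, ← pow_mul, mul_comm Q e, mul_comm (p ^ β) e, pow_mul, div_pow,
        mul_pow, hb, hf1]
    rw [h1, hrel]
    have h2 : ((p : K) / n) ^ (e * p ^ β) ≠ 0 := pow_ne_zero _ (div_ne_zero hpK hn0)
    rw [mul_div_assoc, div_self h2, mul_one]
  have hζ₁R : Ro ζ₁ := ro_root he.1 hζ₁e hζ₀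
  refine ⟨ζ₁ * ω ^ Q, z, f, ro_mul hζ₁R (ro_pow hω Q), hz1, ?_, hf2, hfm, hnn, ?_⟩
  · rw [hloga, ← norm_neg, neg_sub]; exact hz2
  · have h1 : t ^ Q = ζ₁ * (b * f) ^ Q * ((p : K) / n) ^ (p ^ β) := by
      rw [hζ₁, div_pow t]
      have h3 : (b * f) ^ Q ≠ 0 := pow_ne_zero _ (mul_ne_zero hb0 hf0)
      field_simp
    rw [h1, hbz, mul_pow, mul_pow]
    ring

end

end Pool.Agent.ZPK.H43
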