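import Pool.Agent.Helper43_ZPK.SCommon

set_option autoImplicit false

namespace Pool.Agent.ZPK.H43

open Pool.Agent.ZPT Pool.Agent.ZP3

/-- row SYA -/
theorem sya (_hURR : URRStmt) (hURT : URTStmt) (hTHB : THBStmt) (hWTM : WTMStmt) (hROU : ROUStmt)
    (hMTH : MTHStmt) (hLGB : LgbStmt) (hUNV : UnvStmt) (hNUM : NumStmt) (hTEI : TeiStmt)
    (hLGL : LglStmt) : SyaStmt := by
  intro p E hp hE1 hpE K _ _ _ _ _ hK Log hL L hUn s e₁ e₂ e' m β t a₁ a₂ F₁ F₂ n₁ n₂ g₁ g₂ l₁ l₂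
    G₁ G₂ hS
  obtain ⟨h5, hEp, th0, th1, hith, hirh, rh0, rh1, hrt, hrt2, hrp, hd1, hd2⟩ :=
    nums hTHB hNUM hp hE1 hpE
  obtain ⟨haL₁, haL₂, hgL₁, hgL₂, hlL₁, hlL₂⟩ := hS.hL
  obtain ⟨na₁, na₂, ng₁, ng₂, nl₁, nl₂, nl⟩ := hS.h1
  obtain ⟨hw1, hw2⟩ := hS.hw
  obtain ⟨hG1, hG2, hG3, hG4⟩ := hS.hG
  have hp0 : (0 : ℝ) < (p : ℝ) := by exact_mod_cast hp.pos
  have hi0 : (0 : ℝ) < (p : ℝ)⁻¹ := inv_pos.mpr hp0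
  have hi1 : (p : ℝ)⁻¹ < 1 := inv_lt_one_of_one_lt₀ (by exact_mod_cast hp.one_lt)
  have hpK : (p : K) ≠ 0 := Nat.cast_ne_zero.mpr hp.ne_zero
  have hnp : ‖(p : K)‖ = (p : ℝ)⁻¹ := Pool.Agent.ZPK.H27.nrm_p hp K hK
  obtain ⟨ζ₁, z₁, f₁, R₁, z1a, z1b, f1a, f1b, nn₁, rel₁⟩ := pair hURT hTHB hWTM hMTH hLGB hUNV hNUM
    hTEI hp hE1 hpE hK Log hL L hUn s e₁ e' m β t a₁ F₁ n₁ g₁ l₁ G₁ hS.he₁ hS.hm.1 hS.hs haL₁ na₁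
    ng₁ nl₁ hS.r₁ hS.hF.1 hS.hn.1 hw2 hG1 hG3
  obtain ⟨ζ₂, z₂, f₂, R₂, z2a, z2b, f2a, f2b, nn₂, rel₂⟩ := pair hURT hTHB hWTM hMTH hLGB hUNV hNUM
    hTEI hp hE1 hpE hK Log hL L hUn s e₂ e' m β t a₂ F₂ n₂ g₂ l₂ G₂ hS.he₂ hS.hm.1 hS.hs haL₂ na₂
    ng₂ nl₂ hS.r₂ hS.hF.2 hS.hn.2 hw2 hG2 hG4
  have hur := (hUNV p hp K hK L hUn).1
  obtain ⟨η₁, v₁, Rη₁, hv₁, hg₁⟩ := gp hTEI hp h5 hK Log hL g₁ ⟨hur g₁ hgL₁ ng₁.le, ng₁⟩ β hS.hb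
  obtain ⟨η₂, v₂, Rη₂, hv₂, hg₂⟩ := gp hTEI hp h5 hK Log hL g₂ ⟨hur g₂ hgL₂ ng₂.le, ng₂⟩ β hS.hb
  set P : ℕ := p ^ β with hP
  set Q : ℕ := m + e' * P with hQ
  obtain ⟨c, hcL, hc1, hc2⟩ := exC hLGB hUNV hLGL hp h5 hK Log hL L hUn a₁ a₂ e₁ e₂ Q haL₁ haL₂ na₁
    na₂ hS.he₁.1 hS.he₂.1 (lt_of_le_of_lt hS.he₁.2 hEp) (lt_of_le_of_lt hS.he₂.2 hEp)
  refine ⟨c, hcL, hc1, ?_⟩
  -- nonzero
  have hn₁0 : n₁ ≠ 0 := by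
    intro h; rw [h, norm_zero] at nn₁; exact zero_ne_one nn₁
  have hn₂0 : n₂ ≠ 0 := by
    intro h; rw [h, norm_zero] at nn₂; exact zero_ne_one nn₂
  have hg₁0 : g₁ ≠ 0 := by
    intro h; rw [h, norm_zero] at ng₁; exact zero_ne_one ng₁
  have hg₂0 : g₂ ≠ 0 := by
    intro h; rw [h, norm_zero] at ng₂; exact zero_ne_one ng₂
  have uz₁ : ‖(1 + z₁) - 1‖ ≤ (p : ℝ)⁻¹ := by simpa using z1a
  have uz₂ : ‖(1 + z₂) - 1‖ ≤ (p : ℝ)⁻¹ := by simpa using z2a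
  have uc : ‖(1 + c) - 1‖ ≤ (p : ℝ)⁻¹ := by simpa using hc1
  have z₁0 : (1 + z₁) ≠ 0 := u_ne hi1 uz₁
  have z₂0 : (1 + z₂) ≠ 0 := u_ne hi1 uz₂
  have c0 : (1 + c) ≠ 0 := u_ne hi1 uc
  have f₁0 : f₁ ≠ 0 := u_ne rh1 f1a
  have f₂0 : f₂ ≠ 0 := u_ne rh1 f2a
  set δ : ℝ := rh p E * (p : ℝ)⁻¹ with hδ
  have hδ1 : δ < 1 := by
    calc δ ≤ rh p E * 1 := mul_le_mul_of_nonneg_left hi1.le rh0.le
      _ < 1 := by rwa [mul_one]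
  have hδrh : δ ≤ rh p E := by
    calc δ ≤ rh p E * 1 := mul_le_mul_of_nonneg_left hi1.le rh0.le
      _ = rh p E := mul_one _
  have hδ0 : 0 ≤ δ := by positivity
  have hiiδ : (p : ℝ)⁻¹ * (p : ℝ)⁻¹ ≤ δ := mul_le_mul_of_nonneg_right hirh hi0.le
  -- the factors
  have fP₁ : ‖f₁ ^ P - 1‖ ≤ δ := pwk hp hK f₁ (rh p E) rh1 f1a hrp β hS.hb
  have fP₂ : ‖f₂ ^ P - 1‖ ≤ δ := pwk hp hK f₂ (rh p E) rh1 f2a hrp β hS.hb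
  have fQ₁ : f₁ ^ Q = G₁ * (f₁ ^ P) ^ e' := by
    rw [hQ, pow_add, f1b, ← pow_mul, mul_comm e' P]
  have fQ₂ : f₂ ^ Q = G₂ * (f₂ ^ P) ^ e' := by
    rw [hQ, pow_add, f2b, ← pow_mul, mul_comm e' P]
  have hG₁0 : G₁ ≠ 0 := by rw [← f1b]; exact pow_ne_zero _ f₁0
  have hG₂0 : G₂ ≠ 0 := by rw [← f2b]; exact pow_ne_zero _ f₂0
  have uG₁ : ‖G₁ - 1‖ ≤ rh p E := by rw [← f1b]; exact u_pow rh0.le rh1 f1a m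
  have uG₂ : ‖G₂ - 1‖ ≤ rh p E := by rw [← f2b]; exact u_pow rh0.le rh1 f2a m
  have hquo := quo hp hK z₁ z₂ (Log a₁ / (e₁ : K)) (Log a₂ / (e₂ : K)) c (p : ℝ)⁻¹ hi1 z1a z2a z1b
    z2b Q hc1 hc2
  rw [sq] at hquo
  have hquo' := hquo.trans hiiδ
  -- the product of the factors close to one
  set A : K := (1 + z₁) ^ Q / ((1 + z₂) ^ Q * (1 + c)) with hA
  set Rr : K := A * ((f₁ ^ P) ^ e' / (f₂ ^ P) ^ e') * (v₂ / v₁) with hRr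
  have uR : ‖Rr - 1‖ ≤ δ :=
    u_mul hδ1 (u_mul hδ1 hquo' (u_div hδ1 (u_pow hδ0 hδ1 fP₁ e') (u_pow hδ0 hδ1 fP₂ e')))
      (u_div hδ1 (hv₂.trans hiiδ) (hv₁.trans hiiδ))
  set ζ : K := ζ₁ * ζ₂⁻¹ * (η₂ * η₁⁻¹) with hζ
  have Rζ : Ro ζ := ro_mul (ro_mul R₁ (ro_inv R₂)) (ro_mul Rη₂ (ro_inv Rη₁))
  have v₁0 : v₁ ≠ 0 := u_ne hδ1 (hv₁.trans hiiδ)
  have v₂0 : v₂ ≠ 0 := u_ne hδ1 (hv₂.trans hiiδ)
  -- the main relation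
  have hY : (n₁ * g₂ / (n₂ * g₁)) ^ P = ζ * ((1 + c) * G₁ / G₂) * Rr := by
    have h1 : ζ₁ * ((1 + z₁) ^ Q * f₁ ^ Q) * ((p : K) / n₁) ^ P =
        ζ₂ * ((1 + z₂) ^ Q * f₂ ^ Q) * ((p : K) / n₂) ^ P := by rw [← rel₁, ← rel₂]
    have hpP : (p : K) ^ P ≠ 0 := pow_ne_zero _ hpK
    have hn₁P : n₁ ^ P ≠ 0 := pow_ne_zero _ hn₁0
    have hn₂P : n₂ ^ P ≠ 0 := pow_ne_zero _ hn₂0
    have h2 : n₂ ^ P * (ζ₁ * ((1 + z₁) ^ Q * f₁ ^ Q)) =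
        n₁ ^ P * (ζ₂ * ((1 + z₂) ^ Q * f₂ ^ Q)) := by
      rw [div_pow, div_pow] at h1
      field_simp at h1
      linear_combination h1
    have hζ₂0 := ro_ne R₂
    have hη₁0 := ro_ne Rη₁
    have e1 : (1 + z₂) ^ Q ≠ 0 := pow_ne_zero _ z₂0
    have e2 : (f₂ ^ P) ^ e' ≠ 0 := pow_ne_zero _ (pow_ne_zero _ f₂0)
    have h3 : n₁ ^ P / n₂ ^ P = ζ₁ * ζ₂⁻¹ * ((1 + z₁) ^ Q / (1 + z₂) ^ Q) *
        (G₁ * (f₁ ^ P) ^ e' / (G₂ * (f₂ ^ P) ^ e')) := by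
      rw [fQ₁, fQ₂] at h2
      rw [div_eq_iff hn₂P]
      field_simp
      linear_combination (-1 : K) * h2
    have h4 : (n₁ * g₂ / (n₂ * g₁)) ^ P = n₁ ^ P / n₂ ^ P * (g₂ ^ P / g₁ ^ P) := by
      rw [div_pow, mul_pow, mul_pow]
      field_simp
    rw [h4, h3, hg₁, hg₂, hζ, hRr, hA]
    field_simp
  -- the norm of `Y - 1`
  have ht0 : t ≠ 0 := by
    intro h
    have h1 := hS.r₁.tn
    rw [h, norm_zero] at h1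
    have h2 : (0 : ℝ) < (p : ℝ) ^ (-(s : ℝ)) := Real.rpow_pos_of_pos hp0 _
    rw [← h1] at h2
    exact lt_irrefl _ h2
  set w : K := (p : K) / t ^ e' with hw
  have hYw : ‖n₁ * g₂ / (n₂ * g₁) - 1‖ ≤ ‖w‖ := by
    have h1 : n₁ * g₂ / (n₂ * g₁) - 1 = (g₁ * g₂ * (l₁ - l₂) * w +
        ((n₁ - g₁ * (1 + l₁ * w)) * g₂ - (n₂ - g₂ * (1 + l₂ * w)) * g₁)) / (n₂ * g₁) := by
      rw [eq_div_iff (mul_ne_zero hn₂0 hg₁0), sub_mul, div_mul_cancel₀ _ (mul_ne_zero hn₂0 hg₁0)]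
      ring
    rw [h1, norm_div, norm_mul n₂, nn₂, ng₁, one_mul, div_one]
    refine (IsUltrametricDist.norm_add_le_max _ _).trans (max_le ?_ ?_)
    · rw [norm_mul, norm_mul, norm_mul, ng₁, ng₂, nl, one_mul, one_mul, one_mul]
    · refine (nsub _ _).trans (max_le ?_ ?_)
      · rw [norm_mul, ng₂, mul_one]
        exact hS.hn.1.trans (hrt2.le.trans hw1)
      · rw [norm_mul, ng₁, mul_one]
        exact hS.hn.2.trans (hrt2.le.trans hw1)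
  -- the power
  have htrh : ‖t‖ ≤ rh p E := by
    obtain ⟨-, -, -, hx⟩ := hNUM p E hp hE1 hpE
    have ht1 : ‖t‖ < 1 := by
      rw [hS.r₁.tn]
      apply Real.rpow_lt_one_of_one_lt_of_neg (by exact_mod_cast hp.one_lt)
      have := hS.r₁.s0
      have h2 : (0 : ℝ) < (s : ℝ) := by exact_mod_cast this
      linarith
    have h3 := (hx ‖t‖ e' (norm_pos_iff.mpr ht0) ht1 hS.he'.1 hS.he'.2).2.2
    have h4 : ‖w‖ = (p : ℝ)⁻¹ / ‖t‖ ^ e' := by rw [hw, norm_div, hnp, norm_pow]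
    exact (h3 (by rw [← h4]; exact hw1)).1
  have hwP : ‖w‖ ^ P ≤ rh p E := by
    -- norm of the relation
    have hnz : ‖(1 + z₁)‖ = 1 := u_norm hi1 uz₁
    have hnf : ‖f₁‖ = 1 := u_norm rh1 f1a
    have hnζ : ‖ζ₁‖ = 1 := ro_norm R₁
    have h1 : ‖t‖ ^ Q = ((p : ℝ)⁻¹) ^ P := by
      have h2 := congrArg (fun x => ‖x‖) rel₁
      simp only [norm_pow, norm_mul, norm_div, hnζ, hnz, hnf, hnp, nn₁, one_pow, mul_one, one_mul,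
        div_one] at h2
      exact h2
    have h3 : ‖w‖ ^ P = ‖t‖ ^ m := by
      have h4 : ‖w‖ = (p : ℝ)⁻¹ / ‖t‖ ^ e' := by rw [hw, norm_div, hnp, norm_pow]
      rw [h4, div_pow, ← h1, hQ, pow_add, ← pow_mul]
      have h5 : ‖t‖ ^ (e' * P) ≠ 0 := pow_ne_zero _ (norm_ne_zero_iff.mpr ht0)
      rw [mul_div_assoc, div_self h5, mul_one]
    rw [h3]
    calc ‖t‖ ^ m ≤ ‖t‖ ^ 1 := pow_le_pow_of_le_one (norm_nonneg _) (htrh.trans rh1.le) hS.hm.1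
      _ = ‖t‖ := pow_one _
      _ ≤ rh p E := htrh
  have uYP : ‖(n₁ * g₂ / (n₂ * g₁)) ^ P - 1‖ ≤ rh p E := by
    have h1 := Pool.Agent.ZPK.H27.pow_pk hp K hK (n₁ * g₂ / (n₂ * g₁) - 1) β
      (lt_of_le_of_lt hYw hw2)
    rw [add_sub_cancel] at h1
    refine h1.trans (max_le ?_ hirh)
    exact (pow_le_pow_left₀ (norm_nonneg _) hYw _).trans hwP
  -- `ζ = 1`
  have hζ1 : ζ = 1 := by
    by_contra hne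
    have h1 := hROU p hp (by omega) K hK ζ Rζ hne
    have uc' : ‖(1 + c) - 1‖ ≤ rh p E := uc.trans hirh
    have h2 : ‖(1 + c) * G₁ / G₂ * Rr - 1‖ ≤ rh p E :=
      u_mul rh1 (u_div rh1 (u_mul rh1 uc' uG₁) uG₂) (uR.trans hδrh)
    have h3 : ζ = (n₁ * g₂ / (n₂ * g₁)) ^ P / ((1 + c) * G₁ / G₂ * Rr) := by
      rw [eq_div_iff (u_ne rh1 h2), hY]
      ring
    have h4 : ‖ζ - 1‖ ≤ rh p E := by
      rw [h3]; exact u_div rh1 uYP h2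
    exact absurd (h1.trans h4) (not_le.mpr hrt)
  rw [hY, hζ1, one_mul]
  have h1 : (1 + c) * G₁ / G₂ * Rr - (1 + c) * G₁ / G₂ = (1 + c) * G₁ / G₂ * (Rr - 1) := by ring
  rw [h1, norm_mul, norm_div, norm_mul, u_norm hi1 uc, u_norm rh1 uG₁, u_norm rh1 uG₂, mul_one,
    div_one, one_mul]
  refine uR.trans ?_
  rw [hδ]
  refine mul_le_mul_of_nonneg_right ?_ hi0.le
  rw [le_div_iff₀ (by positivity)]
  have : th p ^ 2 ≤ 1 := pow_le_one₀ th0.le th1.le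
  calc rh p E * th p ^ 2 ≤ rh p E * 1 := mul_le_mul_of_nonneg_left this rh0.le
    _ = rh p E := mul_one _

end Pool.Agent.ZPK.H43
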