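import Pool.Agent.Helper43_ZPK.SCommon

set_option autoImplicit false

namespace Pool.Agent.ZPK.H43

open Pool.Agent.ZPT Pool.Agent.ZP3

/-- row SYB -/
theorem syb (_hURR : URRStmt) (hURT : URTStmt) (hTHB : THBStmt) (hWTM : WTMStmt)
    (hMTH : MTHStmt) (hLGB : LgbStmt) (hUNV : UnvStmt) (hNUM : NumStmt) (hTEI : TeiStmt)
    (hLGL : LglStmt) : SybStmt := by
  intro p E hp hE1 hpE K _ _ _ _ _ hK Log hL L hUn s e₁ e₂ e' m β t a₁ a₂ F₁ F₂ n₁ n₂ g₁ g₂ l₁ l₂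
    G₁ G₂ hS
  obtain ⟨h5, hEp, th0, th1, hith, hirh, rh0, rh1, hrt, hrt2, hrp, hd1, hd2⟩ :=
    nums hTHB hNUM hp hE1 hpE
  obtain ⟨haL₁, haL₂, hgL₁, hgL₂, hlL₁, hlL₂⟩ := hS.hL
  obtain ⟨na₁, na₂, ng₁, ng₂, nl₁, nl₂, nl⟩ := hS.h1
  obtain ⟨hw1, hw2⟩ := hS.hw
  obtain ⟨hG1, hG2, hG3, hG4⟩ := hS.hG
  have hp0 : (0 : ℝ) < (p : ℝ) := by exact_mod_cast hp.pos
  have hi0 : (0 : ℝ) < (p : ℝ)⁻¹ := inv_pos.mpr hp0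
  have hi1 : (p : ℝ)⁻¹ < 1 := inv_lt_one_of_one_lt₀ (by exact_mod_cast hp.one_lt)
  have hpK : (p : K) ≠ 0 := Nat.cast_ne_zero.mpr hp.ne_zero
  obtain ⟨ζ₁, z₁, f₁, R₁, z1a, z1b, f1a, f1b, nn₁, rel₁⟩ := pair hURT hTHB hWTM hMTH hLGB hUNV hNUM
    hTEI hp hE1 hpE hK Log hL L hUn s e₁ e' m β t a₁ F₁ n₁ g₁ l₁ G₁ hS.he₁ hS.hm.1 hS.hs haL₁ na₁
    ng₁ nl₁ hS.r₁ hS.hF.1 hS.hn.1 hw2 hG1 hG3
  obtain ⟨ζ₂, z₂, f₂, R₂, z2a, z2b, f2a, f2b, nn₂, rel₂⟩ := pair hURT hTHB hWTM hMTH hLGB hUNV hNUM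
    hTEI hp hE1 hpE hK Log hL L hUn s e₂ e' m β t a₂ F₂ n₂ g₂ l₂ G₂ hS.he₂ hS.hm.1 hS.hs haL₂ na₂
    ng₂ nl₂ hS.r₂ hS.hF.2 hS.hn.2 hw2 hG2 hG4
  have hur := (hUNV p hp K hK L hUn).1
  have hgl1 : ‖g₂ * (l₁ - l₂)‖ = 1 := by rw [norm_mul, ng₂, nl, mul_one]
  obtain ⟨η, v, Rη, hv, hgv⟩ := gp hTEI hp h5 hK Log hL (g₂ * (l₁ - l₂))
    ⟨hur _ (L.mul_mem hgL₂ (L.sub_mem hlL₁ hlL₂)) hgl1.le, hgl1⟩ β hS.hb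
  set P : ℕ := p ^ β with hP
  set Q : ℕ := m + e' * P with hQ
  obtain ⟨c, hcL, hc1, hc2⟩ := exC hLGB hUNV hLGL hp h5 hK Log hL L hUn 1 a₂ 1 e₂ Q L.one_mem haL₂
    norm_one na₂ (le_refl 1) hS.he₂.1 (by omega) (lt_of_le_of_lt hS.he₂.2 hEp)
  obtain ⟨⟨hlog1, -⟩, -, -, -, -, -, -⟩ := hLGB p hp h5 K hK Log hL
  -- nonzero
  have hn₁0 : n₁ ≠ 0 := by
    intro h; rw [h, norm_zero] at nn₁; exact zero_ne_one nn₁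
  have hn₂0 : n₂ ≠ 0 := by
    intro h; rw [h, norm_zero] at nn₂; exact zero_ne_one nn₂
  have hg₁0 : g₁ ≠ 0 := by
    intro h; rw [h, norm_zero] at ng₁; exact zero_ne_one ng₁
  have hg₂0 : g₂ ≠ 0 := by
    intro h; rw [h, norm_zero] at ng₂; exact zero_ne_one ng₂
  have hl0 : l₁ - l₂ ≠ 0 := by
    intro h; rw [h, norm_zero] at nl; exact zero_ne_one nl
  have uz₂ : ‖(1 + z₂) - 1‖ ≤ (p : ℝ)⁻¹ := by simpa using z2a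
  have uc : ‖(1 + c) - 1‖ ≤ (p : ℝ)⁻¹ := by simpa using hc1
  have z₂0 : (1 + z₂) ≠ 0 := u_ne hi1 uz₂
  have c0 : (1 + c) ≠ 0 := u_ne hi1 uc
  have f₂0 : f₂ ≠ 0 := u_ne rh1 f2a
  have ht0 : t ≠ 0 := by
    intro h
    have h1 := hS.r₁.tn
    rw [h, norm_zero] at h1
    have h2 : (0 : ℝ) < (p : ℝ) ^ (-(s : ℝ)) := Real.rpow_pos_of_pos hp0 _
    rw [← h1] at h2
    exact lt_irrefl _ h2
  have ht1 : ‖t‖ < 1 := by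
    rw [hS.r₁.tn]
    apply Real.rpow_lt_one_of_one_lt_of_neg (by exact_mod_cast hp.one_lt)
    have := hS.r₁.s0
    have h2 : (0 : ℝ) < (s : ℝ) := by exact_mod_cast this
    linarith
  have hth2 : 0 < th p ^ 2 := by positivity
  have hth21 : th p ^ 2 ≤ 1 := pow_le_one₀ th0.le th1.le
  set ρ₁ : ℝ := rh p E / th p ^ 2 with hρ₁
  have hrρ : rh p E ≤ ρ₁ := by
    rw [hρ₁, le_div_iff₀ hth2]
    calc rh p E * th p ^ 2 ≤ rh p E * 1 := mul_le_mul_of_nonneg_left hth21 rh0.le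
      _ = rh p E := mul_one _
  have hρ₁0 : 0 ≤ ρ₁ := rh0.le.trans hrρ
  set δ : ℝ := ρ₁ * (p : ℝ)⁻¹ with hδ
  have hδ1 : δ < 1 := by
    calc δ ≤ ρ₁ * 1 := mul_le_mul_of_nonneg_left hi1.le hρ₁0
      _ < 1 := by rwa [mul_one]
  have hδ0 : 0 ≤ δ := by positivity
  have hrδ : rh p E * (p : ℝ)⁻¹ ≤ δ := mul_le_mul_of_nonneg_right hrρ hi0.le
  have hiiδ : (p : ℝ)⁻¹ * (p : ℝ)⁻¹ ≤ δ :=
    (mul_le_mul_of_nonneg_right hirh hi0.le).trans hrδ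
  -- the factors
  have fP₂ : ‖f₂ ^ P - 1‖ ≤ δ := (pwk hp hK f₂ (rh p E) rh1 f2a hrp β hS.hb).trans hrδ
  have fQ₂ : f₂ ^ Q = G₂ * (f₂ ^ P) ^ e' := by
    rw [hQ, pow_add, f2b, ← pow_mul, mul_comm e' P]
  have hG₂0 : G₂ ≠ 0 := by rw [← f2b]; exact pow_ne_zero _ f₂0
  have uG₂ : ‖G₂ - 1‖ ≤ rh p E := by rw [← f2b]; exact u_pow rh0.le rh1 f2a m
  have hquo := quo hp hK 0 z₂ 0 (Log a₂ / (e₂ : K)) c (p : ℝ)⁻¹ hi1 (by rw [norm_zero]; exact hi0.le)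
    z2a (by rw [sub_zero, norm_zero]; positivity) z2b Q hc1 (by
      rw [hlog1, zero_div] at hc2
      exact hc2)
  rw [sq, add_zero, one_pow] at hquo
  have hquo' := hquo.trans hiiδ
  -- `Y - 1`
  set w : K := (p : K) / t ^ e' with hw
  have hw0 : w ≠ 0 := div_ne_zero hpK (pow_ne_zero _ ht0)
  have hwn : 0 < ‖w‖ := norm_pos_iff.mpr hw0
  set x : K := ((n₁ - g₁ * (1 + l₁ * w)) * g₂ - (n₂ - g₂ * (1 + l₂ * w)) * g₁) /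
    (g₁ * g₂ * (l₁ - l₂) * w) with hx
  have hden : g₁ * g₂ * (l₁ - l₂) * w ≠ 0 :=
    mul_ne_zero (mul_ne_zero (mul_ne_zero hg₁0 hg₂0) hl0) hw0
  have hx1 : ‖x‖ ≤ ρ₁ := by
    rw [hx, norm_div, norm_mul _ w, norm_mul, norm_mul, ng₁, ng₂, nl, one_mul, one_mul, one_mul]
    have h1 : ‖(n₁ - g₁ * (1 + l₁ * w)) * g₂ - (n₂ - g₂ * (1 + l₂ * w)) * g₁‖ ≤ rh p E := by
      refine (nsub _ _).trans (max_le ?_ ?_)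
      · rw [norm_mul, ng₂, mul_one]
        exact hS.hn.1
      · rw [norm_mul, ng₁, mul_one]
        exact hS.hn.2
    rw [hρ₁]
    exact div_le_div₀ rh0.le h1 hth2 hw1
  have hYx : n₁ * g₂ / (n₂ * g₁) - 1 = g₂ * (l₁ - l₂) * w * (1 + x) / n₂ := by
    have h1 : g₁ * g₂ * (l₁ - l₂) * w * x =
        (n₁ - g₁ * (1 + l₁ * w)) * g₂ - (n₂ - g₂ * (1 + l₂ * w)) * g₁ := by
      rw [hx, mul_div_cancel₀ _ hden]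
    rw [div_sub_one (mul_ne_zero hn₂0 hg₁0), div_eq_div_iff (mul_ne_zero hn₂0 hg₁0) hn₂0]
    linear_combination (-n₂) * h1
  have ux : ‖(1 + x) - 1‖ ≤ ρ₁ := by simpa using hx1
  have uxP : ‖(1 + x) ^ P - 1‖ ≤ δ := pwk hp hK (1 + x) ρ₁ hd1 ux hd2 β hS.hb
  -- the product
  set Rr : K := 1 / ((1 + z₂) ^ Q * (1 + c)) * (((f₂ ^ P) ^ e')⁻¹) * v * (1 + x) ^ P with hRr
  have uR : ‖Rr - 1‖ ≤ δ :=
    u_mul hδ1 (u_mul hδ1 (u_mul hδ1 hquo' (u_inv hδ1 (u_pow hδ0 hδ1 fP₂ e')))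
      (hv.trans hiiδ)) uxP
  have hY : (n₁ * g₂ / (n₂ * g₁) - 1) ^ P = η * ζ₂⁻¹ * (1 + c) * t ^ m / G₂ * Rr := by
    have hpP : (p : K) ^ P ≠ 0 := pow_ne_zero _ hpK
    have hn₂P : n₂ ^ P ≠ 0 := pow_ne_zero _ hn₂0
    have hζ₂0 := ro_ne R₂
    have e1 : (1 + z₂) ^ Q ≠ 0 := pow_ne_zero _ z₂0
    have e2 : (f₂ ^ P) ^ e' ≠ 0 := pow_ne_zero _ (pow_ne_zero _ f₂0)
    have h1 : w ^ P * t ^ (e' * P) = (p : K) ^ P := by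
      rw [hw, div_pow, ← pow_mul, div_mul_cancel₀ _ (pow_ne_zero _ ht0)]
    have h2 : t ^ m * t ^ (e' * P) * n₂ ^ P = ζ₂ * ((1 + z₂) ^ Q * f₂ ^ Q) * (p : K) ^ P := by
      rw [← pow_add, ← hQ, rel₂, div_pow]
      field_simp
    have ht0' : t ^ (e' * P) ≠ 0 := pow_ne_zero _ ht0
    have h3 : t ^ m * n₂ ^ P = ζ₂ * ((1 + z₂) ^ Q * f₂ ^ Q) * w ^ P := by
      apply mul_right_cancel₀ ht0'
      linear_combination h2 - (ζ₂ * ((1 + z₂) ^ Q * f₂ ^ Q)) * h1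
    have h4 : w ^ P = t ^ m * n₂ ^ P / (ζ₂ * ((1 + z₂) ^ Q * (G₂ * (f₂ ^ P) ^ e'))) := by
      rw [fQ₂] at h3
      rw [eq_div_iff (mul_ne_zero hζ₂0 (mul_ne_zero e1 (mul_ne_zero hG₂0 e2))), h3]
      ring
    rw [hYx, div_pow, mul_pow, mul_pow, hgv, h4, hRr]
    field_simp
  refine ⟨η * ζ₂⁻¹, ro_mul Rη (ro_inv R₂), c, hcL, hc1, ?_, ?_⟩
  · rw [hY]
    have h1 : η * ζ₂⁻¹ * (1 + c) * t ^ m / G₂ * Rr - η * ζ₂⁻¹ * (1 + c) * t ^ m / G₂ =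
        η * ζ₂⁻¹ * (1 + c) * t ^ m / G₂ * (Rr - 1) := by ring
    rw [h1, norm_mul, norm_div, norm_mul, norm_mul, norm_mul, norm_inv, ro_norm Rη, ro_norm R₂,
      u_norm hi1 uc, u_norm rh1 uG₂, inv_one, one_mul, one_mul, one_mul, div_one, norm_pow]
    calc ‖t‖ ^ m * ‖Rr - 1‖ ≤ 1 * δ :=
          mul_le_mul (pow_le_one₀ (norm_nonneg _) ht1.le) uR (norm_nonneg _) zero_le_one
      _ = rh p E / th p ^ 2 * (p : ℝ)⁻¹ := by rw [one_mul]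
  · rw [hYx, norm_div, norm_mul, norm_mul, hgl1, u_norm hd1 ux, nn₂]
    ring

end Pool.Agent.ZPK.H43
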